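import Pool.Agent.ASD.Stmts3
import Pool.Agent.ASD.Stmts4
import Pool.Agent.Helper91_ASD.Star
import Pool.Agent.Helper62_AT3.CO2
import Pool.Agent.Helper97_K9.Tools
import Pool.Agent.Helper26_PP.Cov

/-!
# Squad ASD, row PRO: `W12` of pure conditions for a pair
-/

open scoped BigOperators

set_option autoImplicit false
set_option linter.unusedSectionVars false

noncomputable section

namespace Pool.Agent.PP.SD.H81

open Pool.Agent.Helper51_AWC Pool.Agent.Helper79_WRA Pool.Agent.PP Pool.Agent.PP.KF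
open Pool.Agent.PP.K9 Pool.Agent.PP.K9.H97 Pool.Agent.PP.H75 Pool.Agent.PP.T3 Pool.Agent.PP.SO
open Pool.Agent.PP.SD.H91

attribute [local instance] Ideal.Quotient.field

section gen

variable {V₀ G H : Type} [CommGroup V₀] [Group G] [Group H] {n : ℕ}

/-- the conditions for the pure sets -/
theorem cn_pure (m : ℕ) (ι : V₀ →* G) (L : Set (SO.SS n V₀))
    (hL : ∀ s ∈ L, (s.1 : ℕ) = 0 ∧ (s.2.1 : ℕ) = 0) (κ x y : G) :
    cn m ι L κ x y ↔ ∀ s ∈ L, x = ι s.2.2.1 * x * (ι s.2.2.1)⁻¹ ∧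
      y = ι s.2.2.1 * y * (ι s.2.2.1)⁻¹ := by
  unfold cn
  refine forall₂_congr fun s hs => ?_
  rw [(hL s hs).1, (hL s hs).2]
  simp only [pow_zero, inv_one, one_mul, mul_one]

/-- the number of the pairs -/
theorem Rk_pure (m : ℕ) (ι : V₀ →* G) (ι' : V₀ →* H) (j : H →* G) (hj : Function.Injective j)
    (hi : ∀ v, j (ι' v) = ι v) (L : Set (SO.SS n V₀))
    (hL : ∀ s ∈ L, (s.1 : ℕ) = 0 ∧ (s.2.1 : ℕ) = 0)
    (hcen : ∀ x : G, (∀ s ∈ L, x = ι s.2.2.1 * x * (ι s.2.2.1)⁻¹) → ∃ h, j h = x) (κ : H) :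
    Rk m ι' L κ = Rk m ι L (j κ) := by
  have hP : (fun w : H × H => (j w.1, j w.2)) '' Ps m ι' L κ = Ps m ι L (j κ) := by
    ext w
    constructor
    · rintro ⟨w', ⟨h1, h2⟩, rfl⟩
      refine ⟨?_, ?_⟩
      · change SO.kap (j w'.1) (j w'.2) = j κ
        rw [← h1]
        unfold SO.kap
        simp only [map_mul, map_inv]
      · rw [cn_pure m ι L hL]
        rw [cn_pure m ι' L hL] at h2
        intro s hs
        obtain ⟨h3, h4⟩ := h2 s hs
        refine ⟨?_, ?_⟩
        · change j w'.1 = ι s.2.2.1 * j w'.1 * (ι s.2.2.1)⁻¹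
          conv_lhs => rw [h3]
          rw [map_mul, map_mul, map_inv, hi]
        · change j w'.2 = ι s.2.2.1 * j w'.2 * (ι s.2.2.1)⁻¹
          conv_lhs => rw [h4]
          rw [map_mul, map_mul, map_inv, hi]
    · rintro ⟨h1, h2⟩
      rw [cn_pure m ι L hL] at h2
      obtain ⟨x, hx⟩ := hcen w.1 fun s hs => (h2 s hs).1
      obtain ⟨y, hy⟩ := hcen w.2 fun s hs => (h2 s hs).2
      refine ⟨(x, y), ⟨?_, ?_⟩, ?_⟩
      · apply hj
        rw [← h1, ← hx, ← hy]
        unfold SO.kap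
        simp only [map_mul, map_inv]
      · rw [cn_pure m ι' L hL]
        intro s hs
        obtain ⟨h3, h4⟩ := h2 s hs
        refine ⟨?_, ?_⟩
        · apply hj
          rw [map_mul, map_mul, map_inv, hi]
          change j x = ι s.2.2.1 * j x * (ι s.2.2.1)⁻¹
          rw [hx]
          exact h3
        · apply hj
          rw [map_mul, map_mul, map_inv, hi]
          change j y = ι s.2.2.1 * j y * (ι s.2.2.1)⁻¹
          rw [hy]
          exact h4
      · exact Prod.ext hx hy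
  have hinj : Function.Injective (fun w : H × H => (j w.1, j w.2)) := by
    intro a b hab
    have h1 : j a.1 = j b.1 := congrArg Prod.fst hab
    have h2 : j a.2 = j b.2 := congrArg Prod.snd hab
    exact Prod.ext (hj h1) (hj h2)
  unfold Rk
  rw [← hP, Set.ncard_image_of_injective _ hinj]

/-- no pairs outside of the image -/
theorem Rk_out (m : ℕ) (ι : V₀ →* G) (j : H →* G) (L : Set (SO.SS n V₀))
    (hL : ∀ s ∈ L, (s.1 : ℕ) = 0 ∧ (s.2.1 : ℕ) = 0)
    (hcen : ∀ x : G, (∀ s ∈ L, x = ι s.2.2.1 * x * (ι s.2.2.1)⁻¹) → ∃ h, j h = x) (κ : G)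
    (hκ : κ ∉ Set.range j) : Rk m ι L κ = 0 := by
  have hP : Ps m ι L κ = ∅ := by
    rw [Set.eq_empty_iff_forall_notMem]
    rintro w ⟨h1, h2⟩
    rw [cn_pure m ι L hL] at h2
    obtain ⟨x, hx⟩ := hcen w.1 fun s hs => (h2 s hs).1
    obtain ⟨y, hy⟩ := hcen w.2 fun s hs => (h2 s hs).2
    apply hκ
    refine ⟨SO.kap x y, ?_⟩
    rw [← h1, ← hx, ← hy]
    unfold SO.kap
    simp only [map_mul, map_inv]
  unfold Rk
  rw [hP, Set.ncard_empty, Nat.cast_zero]

theorem UU_iff (ι : V₀ →* G) (ι' : V₀ →* H) (j : H →* G) (hj : Function.Injective j)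
    (hi : ∀ v, j (ι' v) = ι v) (L : Set (SO.SS n V₀)) (u : H) :
    u ∈ UU ι' L ↔ j u ∈ UU ι L := by
  refine forall₂_congr fun s hs => ?_
  have h1 : ι s.2.2.1 * j u * (ι s.2.2.2)⁻¹ = j (ι' s.2.2.1 * u * (ι' s.2.2.2)⁻¹) := by
    rw [map_mul, map_mul, map_inv, hi, hi]
  rw [h1]
  exact hj.eq_iff.symm

/-- products of functions which vanish outside of the image -/
theorem mulF_range [Finite G] [Finite H] (j : H →* G) (hj : Function.Injective j) (a b : G → ℂ)
    (ha : ∀ x, x ∉ Set.range j → a x = 0) (x : H) :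
    mulF (fun h => a (j h)) (fun h => b (j h)) x = mulF a b (j x) := by
  have := Fintype.ofFinite G
  have := Fintype.ofFinite H
  unfold mulF
  rw [finsum_eq_sum_of_fintype, finsum_eq_sum_of_fintype]
  refine Fintype.sum_of_injective j hj _ _ (fun t ht => ?_) fun t => ?_
  · rw [ha t ht, zero_mul]
  · change a (j t) * b (j (t⁻¹ * x)) = a (j t) * b ((j t)⁻¹ * j x)
    rw [map_mul, map_inv]

end gen

section blk

variable {V₀ G H : Type} [CommGroup V₀] [Finite V₀] [Group G] [Finite G] [Group H] [Finite H] {n : ℕ}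
  {M : Ideal (integralClosure ℤ ℂ)} [M.IsMaximal]

theorem cen_of {B : Bk (FF M) V₀ G} {L : Set (SO.SS n V₀)} {x : G}
    (hx : ∀ s ∈ L, x = B.i s.2.2.1 * x * (B.i s.2.2.1)⁻¹) : x ∈ B.C (pL L) := by
  have h1 : pL L ≤ (Subgroup.centralizer {x}).comap B.i := by
    unfold pL
    rw [Subgroup.closure_le]
    rintro _ ⟨s, hs, rfl⟩
    change B.i s.2.2.1 ∈ Subgroup.centralizer {x}
    rw [Subgroup.mem_centralizer_iff]
    rintro _ rfl
    exact eq_mul_inv_iff_mul_eq.1 (hx s hs)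
  unfold Bk.C
  rw [Subgroup.mem_centralizer_iff]
  rintro _ ⟨v, hv, rfl⟩
  have h2 := h1 hv
  change B.i v ∈ Subgroup.centralizer {x} at h2
  rw [Subgroup.mem_centralizer_iff] at h2
  exact (h2 x rfl).symm

/-- the function `fc` vanishes outside of the centraliser -/
theorem fc_out (B : Bk (FF M) V₀ G) (W : Subgroup V₀) (c : V₀) (x : G) (hc : B.i c ∈ B.C W)
    (hx : x ∉ B.C W) : fc B W c x = 0 := by
  unfold fc
  have h1 : ∀ z : B.C W, bh B (W ⊔ Subgroup.zpowers c) ((B.i c)⁻¹ * ((z : G)⁻¹ * x * z)) = 0 := by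
    intro z
    unfold bh PP.ext0
    refine dif_neg fun h => hx ?_
    have h2 : B.C (W ⊔ Subgroup.zpowers c) ≤ B.C W := by
      unfold Bk.C
      exact Subgroup.centralizer_le (Subgroup.map_mono le_sup_left)
    have h3 := h2 h
    have h4 : x = z * (B.i c * ((B.i c)⁻¹ * ((z : G)⁻¹ * x * z))) * (z : G)⁻¹ := by group
    rw [h4]
    exact (B.C W).mul_mem ((B.C W).mul_mem z.2 ((B.C W).mul_mem hc h3)) ((B.C W).inv_mem z.2)
  rw [finsum_congr h1, finsum_zero, mul_zero]

/-- the lift of a local block is an idempotent -/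
theorem ix_bh (B : Bk (FF M) V₀ G) (W : Subgroup V₀) : Ix (B.C W) (bh B W) := by
  have := Fintype.ofFinite (B.C W)
  refine ⟨fun x hx => ?_, ?_⟩
  · unfold bh PP.ext0
    rw [dif_neg hx]
  · have h1 : (fun t : B.C W => bh B W t) = eh M (fun t : B.C W => B.b W t) := by
      funext t
      unfold bh PP.ext0
      rw [dif_pos t.2]
    rw [h1]
    exact KF.H25.eh_idem _

/-- the lift of a conjugate of a block -/
theorem cj_bh (B : Bk (FF M) V₀ G) (W : Subgroup V₀) (hb : Bx (B.C W) (B.b W)) {u : G}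
    (hu : u ∈ Subgroup.normalizer (B.C W : Set G)) :
    (fun t : B.C W => H75.cj u (bh B W) t) =
      eh M (fun t : B.C W => H75.cj u (B.b W) t) := by
  let φ : B.C W ≃* B.C W :=
    { toFun := fun x => ⟨u * x * u⁻¹, (Subgroup.mem_normalizer_iff.1 hu x).1 x.2⟩
      invFun := fun x => ⟨u⁻¹ * x * u, (conj_mem_iff hu x).2 x.2⟩
      left_inv := fun x => Subtype.ext (by
        change u⁻¹ * (u * (x : G) * u⁻¹) * u = x
        group)
      right_inv := fun x => Subtype.ext (by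
        change u * (u⁻¹ * (x : G) * u) * u⁻¹ = x
        group)
      map_mul' := fun x y => Subtype.ext (by
        change u * ((x : G) * y) * u⁻¹ = u * x * u⁻¹ * (u * y * u⁻¹)
        group) }
  funext t
  have h1 := T3.H62.eh_equiv (M := M) φ (b := fun t : B.C W => B.b W t) hb.blk.1.1 (φ.symm t)
  rw [φ.apply_symm_apply] at h1
  have h2 : (fun y : B.C W => (fun t : B.C W => B.b W t) (φ.symm y)) =
      fun t : B.C W => H75.cj u (B.b W) t := by
    funext y
    rfl
  rw [h2] at h1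
  rw [h1]
  have h3 : H75.cj u (bh B W) t = bh B W ((φ.symm t : B.C W) : G) := rfl
  rw [h3]
  unfold bh PP.ext0
  rw [dif_pos (φ.symm t).2]

/-- the product is `0` for different blocks -/
theorem van (B : Bk (FF M) V₀ G) (W : Subgroup V₀) (hb : Bx (B.C W) (B.b W)) {u : G}
    (hu : u ∈ Subgroup.normalizer (B.C W : Set G)) (hne : H75.cj u (B.b W) ≠ B.b W)
    (a a' : G → ℂ) (ha' : ∀ x, x ∉ B.C W → a' x = 0)
    (h : mulF a (bh B W) = a) (h' : mulF a' (bh B W) = a') : mulF a (H75.cj u a') = 0 := by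
  obtain ⟨K, hK⟩ : ∃ K, K = B.C W := ⟨_, rfl⟩
  have hb2 := hb.cj hu
  have hix := ix_bh B W
  have hix2 := hix.cj hu
  have h0 : mulF (B.b W) (H75.cj u (B.b W)) = 0 := by
    rcases hb.dich hb2 with h1 | h1
    · exact absurd h1.symm hne
    · exact h1
  have h1 : mulF (bh B W) (H75.cj u (bh B W)) = 0 := by
    refine eq_of_res (N := B.C W) (mulF_supp (B.C W) hix.supp hix2.supp) (fun _ _ => rfl) ?_
    rw [mulF_res (B.C W) _ hix.supp, cj_bh B W hb hu]
    have h2 : (fun t : B.C W => bh B W t) = eh M (fun t : B.C W => B.b W t) := by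
      funext t
      unfold bh PP.ext0
      rw [dif_pos t.2]
    rw [h2]
    refine T3.H62.eh_orth hb.blk.1 hb2.blk.1 ?_
    rw [← mulF_res (B.C W) _ hb.supp, h0]
    rfl
  have ha2 : ∀ x, x ∉ B.C W → H75.cj u a' x = 0 := fun x hx => ha' _ fun h3 => hx
    ((conj_mem_iff hu x).1 h3)
  have h2 : mulF (H75.cj u (bh B W)) (H75.cj u a') = H75.cj u a' := by
    rw [← mulF_comm_of (K := B.C W) ha2 fun k hk => hix2.inv hk, ← cj_mulF, h']
  calc mulF a (H75.cj u a')
      = mulF (mulF a (bh B W)) (mulF (H75.cj u (bh B W)) (H75.cj u a')) := by rw [h, h2]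
    _ = mulF a (mulF (mulF (bh B W) (H75.cj u (bh B W))) (H75.cj u a')) := by
        rw [Helper26_PP.mulF_assoc', Helper26_PP.mulF_assoc']
    _ = 0 := by
        rw [h1]
        funext x
        unfold mulF
        simp

end blk

/-- PRO -/
theorem pro (fcd : FcdStmt) (fud : FudStmt) (pch : PchStmt) : ProStmt := by
  intro ℓ _ M _ hM hℓ V₀ G H _ _ _ _ _ _ E₀ A hFq B B' j hB hB' hPr n m _ c d L hp hq hpure
  have := Fintype.ofFinite G
  have := Fintype.ofFinite H
  classical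
  obtain ⟨hcard, hmem, hcen, hbh, hfc, -⟩ := pch ℓ M hM hℓ V₀ G H E₀ A B B' j hB hB' hPr A le_rfl
  have hji : ∀ v, j (B'.i v) = B.i v := hPr.i
  have hiA : ∀ v, B.i v ∈ B.C A := by
    intro v
    unfold Bk.C
    rw [Subgroup.mem_centralizer_iff]
    rintro _ ⟨w, hw, rfl⟩
    rw [← map_mul, ← map_mul, mul_comm]
  have hcenL : ∀ x : G, (∀ s ∈ L, x = B.i s.2.2.1 * x * (B.i s.2.2.1)⁻¹) → ∃ h, j h = x := by
    intro x hx
    refine hcen x ?_
    rw [← hp]
    exact cen_of hx
  have hbx : Bx (B.C A) (B.b A) := (hB.lb A).blk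
  -- the elements `u`
  have key : ∀ u ∈ UU B.i L, u ∉ Set.range j → mulF (fc B A c) (H75.cj u (fc B A d)) = 0 := by
    intro u hu hur
    have hst : ∀ s ∈ L, u * B.i s.2.2.2 * u⁻¹ = B.i s.2.2.1 := by
      intro s hs
      have h1 := hu s hs
      have h2 : u * B.i s.2.2.2 = B.i s.2.2.1 * u := by
        calc u * B.i s.2.2.2 = B.i s.2.2.1 * u * (B.i s.2.2.2)⁻¹ * B.i s.2.2.2 := by rw [← h1]
          _ = B.i s.2.2.1 * u := by group
      rw [h2, mul_inv_cancel_right]
    have h5 : ∀ v ∈ A, u * B.i v * u⁻¹ ∈ A.map B.i := by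
      have h6 : qL L ≤ ((A.map B.i).comap (MulAut.conj u).toMonoidHom).comap B.i := by
        unfold qL
        rw [Subgroup.closure_le]
        rintro _ ⟨s, hs, rfl⟩
        change u * B.i s.2.2.2 * u⁻¹ ∈ A.map B.i
        rw [hst s hs, ← hp]
        exact ⟨s.2.2.1, Subgroup.subset_closure ⟨s, hs, rfl⟩, rfl⟩
      intro v hv
      rw [← hq] at hv
      exact h6 hv
    have h7 : ∀ v ∈ A, u⁻¹ * B.i v * u ∈ A.map B.i := by
      have h6 : pL L ≤ ((A.map B.i).comap (MulAut.conj u⁻¹).toMonoidHom).comap B.i := by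
        unfold pL
        rw [Subgroup.closure_le]
        rintro _ ⟨s, hs, rfl⟩
        change u⁻¹ * B.i s.2.2.1 * u⁻¹⁻¹ ∈ A.map B.i
        rw [← hst s hs, ← hq]
        have h8 : u⁻¹ * (u * B.i s.2.2.2 * u⁻¹) * u⁻¹⁻¹ = B.i s.2.2.2 := by group
        rw [h8]
        exact ⟨s.2.2.2, Subgroup.subset_closure ⟨s, hs, rfl⟩, rfl⟩
      intro v hv
      rw [← hp] at hv
      have h8 := h6 hv
      change u⁻¹ * B.i v * u⁻¹⁻¹ ∈ A.map B.i at h8
      rwa [inv_inv] at h8
    have memC : ∀ x : G, x ∈ B.C A ↔ ∀ v ∈ A, B.i v * x = x * B.i v := by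
      intro x
      unfold Bk.C
      rw [Subgroup.mem_centralizer_iff]
      constructor
      · intro h v hv
        exact h _ ⟨v, hv, rfl⟩
      · rintro h _ ⟨v, hv, rfl⟩
        exact h v hv
    have hnorm : u ∈ Subgroup.normalizer (B.C A : Set G) := by
      rw [Subgroup.mem_normalizer_iff]
      intro x
      rw [memC, memC]
      constructor
      · intro h v hv
        obtain ⟨v', hv', h8⟩ := h7 v hv
        have h9 := h v' hv'
        rw [h8] at h9
        calc B.i v * (u * x * u⁻¹) = u * (u⁻¹ * B.i v * u * x) * u⁻¹ := by group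
          _ = u * x * u⁻¹ * B.i v := by rw [h9]; group
      · intro h v hv
        obtain ⟨v', hv', h8⟩ := h5 v hv
        have h9 := h v' hv'
        rw [h8] at h9
        calc B.i v * x = u⁻¹ * (u * B.i v * u⁻¹ * (u * x * u⁻¹)) * u := by group
          _ = x * B.i v := by rw [h9]; group
    by_contra h0
    have hcj : H75.cj u (B.b A) = B.b A := by
      by_contra hne
      refine h0 (van B A hbx hnorm hne _ _ (fun x hx => fc_out B A d x (hiA d) hx) ?_ ?_)
      · exact funext fun x => (fcd ℓ M hM V₀ G E₀ hFq B hB A).2 c x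
      · exact funext fun x => (fcd ℓ M hM V₀ G E₀ hFq B hB A).2 d x
    have h8 : ∀ v : V₀, ∃ v' : V₀, v ∈ A → v' ∈ A ∧ u * B.i v * u⁻¹ = B.i v' := by
      intro v
      by_cases hv : v ∈ A
      · obtain ⟨v', hv', h9⟩ := h5 v hv
        exact ⟨v', fun _ => ⟨hv', h9.symm⟩⟩
      · exact ⟨1, fun h => absurd h hv⟩
    choose f hf using h8
    obtain ⟨σ, hσ, -, t, ht, htσ, htu⟩ := fud ℓ M hM V₀ G E₀ hFq B hB A A u f
      (fun v hv => (hf v hv).2) (fun v hv => (hf v hv).1) (fun v hv => by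
        obtain ⟨v', hv', h9⟩ := h7 v hv
        refine ⟨v', hv', hB.inj ?_⟩
        rw [← (hf v' hv').2, h9]
        group) hcj
    obtain ⟨t', -, ht'σ⟩ := hB'.sur σ hσ
    have h9 : (j t')⁻¹ * t ∈ B.C A := by
      rw [memC]
      intro v _
      have h10 : t * B.i v = B.i (σ v) * t := by
        rw [← htσ v]
        group
      have h11 : j t' * B.i v = B.i (σ v) * j t' := by
        rw [← hji, ← hji, ← map_mul, ← map_mul, ← ht'σ v]
        congr 1
        group
      calc B.i v * ((j t')⁻¹ * t) = (j t')⁻¹ * (j t' * B.i v) * (j t')⁻¹ * t := by group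
        _ = (j t')⁻¹ * (B.i (σ v) * t) := by rw [h11]; group
        _ = (j t')⁻¹ * t * B.i v := by rw [← h10]; group
    obtain ⟨y₁, hy₁⟩ := hcen _ h9
    obtain ⟨y₂, hy₂⟩ := hcen _ htu
    apply hur
    refine ⟨t' * y₁ * y₂, ?_⟩
    rw [map_mul, map_mul, hy₁, hy₂]
    group
  have hsum : (∑ u : H, if u ∈ UU B'.i L then
        ∑ κ, mulF (fc B' A c) (H75.cj u (fc B' A d)) κ * Rk m B'.i L κ else 0) =
      ∑ u : G, if u ∈ UU B.i L then
        ∑ κ, mulF (fc B A c) (H75.cj u (fc B A d)) κ * Rk m B.i L κ else 0 := by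
    refine Fintype.sum_of_injective j hPr.inj _ _ (fun u hu => ?_) fun u => ?_
    · by_cases h1 : u ∈ UU B.i L
      · rw [if_pos h1, key u h1 hu]
        exact Finset.sum_eq_zero fun κ _ => zero_mul _
      · rw [if_neg h1]
    · by_cases h1 : u ∈ UU B'.i L
      · rw [if_pos h1, if_pos ((UU_iff B.i B'.i j hPr.inj hji L u).1 h1)]
        refine Fintype.sum_of_injective j hPr.inj _ _ (fun κ hκ => ?_) fun κ => ?_
        · rw [Rk_out m B.i j L hpure hcenL κ hκ, mul_zero]
        · rw [Rk_pure m B.i B'.i j hPr.inj hji L hpure hcenL κ]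
          congr 1
          rw [← mulF_range j hPr.inj (fc B A c) (H75.cj (j u) (fc B A d)) (fun x hx => fc_out B A c x (hiA c)
            fun h2 => hx (hcen x h2)) κ]
          have h3 : fc B' A c = fun h => fc B A c (j h) := funext fun h => hfc c h
          have h4 : H75.cj u (fc B' A d) = fun h => H75.cj (j u) (fc B A d) (j h) := by
            funext h
            change fc B' A d (u⁻¹ * h * u) = fc B A d ((j u)⁻¹ * j h * j u)
            rw [hfc, map_mul, map_mul, map_inv]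
          rw [h3, h4]
      · rw [if_neg h1, if_neg fun h2 => h1 ((UU_iff B.i B'.i j hPr.inj hji L u).2 h2)]
  have h1 := star B m c d L
  have h2 := star B' m c d L
  rw [hp, hq] at h1 h2
  rw [hsum, ← h1, hcard] at h2
  have h3 : (Nat.card (B.C A) : ℂ) ≠ 0 := Nat.cast_ne_zero.2 Nat.card_pos.ne'
  exact mul_left_cancel₀ (mul_ne_zero h3 h3) h2

end Pool.Agent.PP.SD.H81
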