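import Pool.Agent.ASD.Stmts4

/-!
# Squad ASD, row PRT: `W13` for a pair
-/

open scoped BigOperators

set_option autoImplicit false
set_option linter.unusedSectionVars false

noncomputable section

namespace Pool.Agent.PP.SD.H81

open Pool.Agent.Helper51_AWC Pool.Agent.Helper79_WRA Pool.Agent.PP Pool.Agent.PP.KF
open Pool.Agent.PP.K9 Pool.Agent.PP.K9.H97 Pool.Agent.PP.H75 Pool.Agent.PP.T3 Pool.Agent.PP.SO

attribute [local instance] Ideal.Quotient.field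

/-- the condition `PE` for a subgroup -/
theorem pe_inj {G H : Type} [Group G] [Group H] {j : H →* G} (hj : Function.Injective j)
    {ℓ n m : ℕ} (h : PE ℓ n m G) : PE ℓ n m H := by
  refine ⟨h.pw, h.md, fun g hg => ?_, fun g hg => ?_⟩
  · obtain ⟨k, hk⟩ := hg
    have h1 : El ℓ (j g) := ⟨k, by rw [← map_pow, hk, map_one]⟩
    obtain ⟨h2, h3⟩ := h.el (j g) h1
    rw [← map_pow] at h2 h3
    exact ⟨hj h2, hj (h3.trans (map_one j).symm)⟩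
  · have h1 : Reg ℓ (j g) := by
      unfold Reg
      rw [orderOf_injective j hj g]
      exact hg
    have h2 := h.rg (j g) h1
    rw [← map_pow] at h2
    exact hj (h2.trans (map_one j).symm)

theorem p1_Lm {n : ℕ} {V₀ : Type} [CommGroup V₀] (L : Set (SO.SS n V₀)) :
    p1 (SD.Lm L) = pL L := by
  unfold p1 pL
  congr 1
  ext p
  constructor
  · rintro ⟨_, ⟨s, hs, rfl⟩, rfl⟩
    exact ⟨s, hs, rfl⟩
  · rintro ⟨s, hs, rfl⟩
    exact ⟨_, ⟨s, hs, rfl⟩, rfl⟩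

theorem p1_Lq {n : ℕ} {V₀ : Type} [CommGroup V₀] (L : Set (SO.SS n V₀)) :
    p1 (SD.Lq L) = pL L := by
  unfold p1 pL
  congr 1
  ext p
  constructor
  · rintro ⟨_, ⟨s, hs, rfl⟩, rfl⟩
    exact ⟨s, hs, rfl⟩
  · rintro ⟨s, hs, rfl⟩
    exact ⟨_, ⟨s, hs, rfl⟩, rfl⟩

theorem p2_Lm {n : ℕ} {V₀ : Type} [CommGroup V₀] (L : Set (SO.SS n V₀)) :
    p2 (SD.Lm L) = qL L := by
  unfold p2 qL
  congr 1
  ext p
  constructor
  · rintro ⟨_, ⟨s, hs, rfl⟩, rfl⟩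
    exact ⟨s, hs, rfl⟩
  · rintro ⟨s, hs, rfl⟩
    exact ⟨_, ⟨s, hs, rfl⟩, rfl⟩

theorem p2_Lq {n : ℕ} {V₀ : Type} [CommGroup V₀] (L : Set (SO.SS n V₀)) :
    p2 (SD.Lq L) = qL L := by
  unfold p2 qL
  congr 1
  ext p
  constructor
  · rintro ⟨_, ⟨s, hs, rfl⟩, rfl⟩
    exact ⟨s, hs, rfl⟩
  · rintro ⟨s, hs, rfl⟩
    exact ⟨_, ⟨s, hs, rfl⟩, rfl⟩

theorem prt (w3c : W3cStmt) (pch : PchStmt) (slp : SlpStmt) : PrtStmt := by
  intro ℓ _ M _ hM hℓ V₀ G H _ _ _ _ _ _ E₀ A hF B B' j hB hB' hP n m hPE c d L hp hq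
  have hPE' : PE ℓ n m H := pe_inj hP.inj hPE
  obtain ⟨h1, -, -, -, -, h6, h7, -⟩ := pch ℓ M hM hℓ V₀ G H E₀ A B B' j hB hB' hP A le_rfl
  have hG := w3c ℓ M hM hℓ V₀ G E₀ hF B hB n m hPE c d L
  have hH := w3c ℓ M hM hℓ V₀ H E₀ hF B' hB' n m hPE' c d L
  rw [hp, hq] at hG hH
  rw [hG, hH, h1]
  congr 1
  have s1 := slp ℓ M hM hℓ V₀ G H E₀ A hF B B' j hB hB' hP n m hPE (SD.Lm L)
    ((p1_Lm L).trans hp) ((p2_Lm L).trans hq)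
  have s2 := slp ℓ M hM hℓ V₀ G H E₀ A hF B B' j hB hB' hP n m hPE (SD.Lq L)
    ((p1_Lq L).trans hp) ((p2_Lq L).trans hq)
  refine (finsum_mem_eq_of_bijOn _ h6 fun χ hχ => ?_).symm
  refine finsum_mem_eq_of_bijOn _ h6 fun χ' hχ' => ?_
  rw [h7 c χ hχ, h7 d χ' hχ', s1 χ hχ χ' hχ', s2 χ hχ χ' hχ']

end Pool.Agent.PP.SD.H81
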