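import Pool.Agent.ASD.Stmts3
import Pool.Agent.Helper79_ASO.WTH

/-!
# Squad ASD, row WTD: the value of `W13` without freeness
-/

open scoped BigOperators

set_option autoImplicit false
set_option linter.unusedSectionVars false

noncomputable section

namespace Pool.Agent.PP.SD.H81

open Pool.Agent.Helper51_AWC Pool.Agent.Helper79_WRA Pool.Agent.PP Pool.Agent.PP.KF
open Pool.Agent.PP.K9 Pool.Agent.PP.K9.H97 Pool.Agent.PP.H75 Pool.Agent.PP.T3 Pool.Agent.PP.SO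
open Pool.Agent.PP.SO.H79

attribute [local instance] Ideal.Quotient.field

theorem wtd (ssd : SsdStmt) (nsd : NsdStmt) : WtdStmt := by
  intro ℓ _ M _ hM hℓ V₀ G _ _ _ _ E₀ hFr B hSy n m hPE c d L hL1 hL2
  classical
  have iG := Fintype.ofFinite G
  have iV := Fintype.ofFinite V₀
  have iA := Fintype.ofFinite (MulAut V₀)
  have iL := Fintype.ofFinite (lin V₀)
  obtain ⟨b1, v1, z1, -⟩ := nsd ℓ M hM hℓ V₀ G E₀ hFr B hSy (pL L) hL1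
  obtain ⟨b2, v2, z2, -⟩ := nsd ℓ M hM hℓ V₀ G E₀ hFr B hSy (qL L) hL2
  have hℓ0 : (ℓ : ℂ) ≠ 0 := by exact_mod_cast (Fact.out : ℓ.Prime).ne_zero
  have hc1 : (Nat.card (B.C (pL L)) : ℂ) ≠ 0 := by exact_mod_cast Nat.card_pos.ne'
  have hc2 : (Nat.card (B.C (qL L)) : ℂ) ≠ 0 := by exact_mod_cast Nat.card_pos.ne'
  have hS : ∀ W : Subgroup V₀, Rw E₀ W → ((B.S W : ℤ) : ℂ) * (B.S W : ℤ) = 1 := by
    intro W hW
    rcases hSy.sg W hW with h | h <;> rw [h] <;> norm_num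
  rw [w13_SL B m c d L (fun χ h h' h'' => z1 χ h h' h'' c) (fun χ h h' h'' => z2 χ h h' h'' d)]
  have key : ∀ χ ∈ (ch_finite B (pL L)).toFinset, ∀ χ' ∈ (ch_finite B (qL L)).toFinset,
      cv (fc B (pL L) c) χ * cv (fc B (qL L) d) χ' *
        (SL B m (Lm L) χ χ' * starRingEnd ℂ (SL B m (Lp L) χ χ')) =
      (((ux B.U (pL L) c : ℚ) : ℂ) * ((ux B.U (qL L) d : ℚ) : ℂ) *
        ((Nat.card (B.C (pL L)) : ℂ) * Nat.card (B.C (qL L)) / ℓ ^ 2) ^ 2) *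
      (lam B (pL L) χ c * lam B (qL L) χ' d *
        ((∑ᶠ w ∈ SO.H79.TT E₀ (Lm L), lam B (pL L) χ w.2 *
            starRingEnd ℂ (lam B (qL L) χ' (w.1 w.2))) *
          starRingEnd ℂ (∑ᶠ w ∈ SO.H79.TT E₀ (Lp L), lam B (pL L) χ w.2 *
            starRingEnd ℂ (lam B (qL L) χ' (w.1 w.2))))) := by
    intro χ hχ χ' hχ'
    rw [Set.Finite.mem_toFinset] at hχ hχ'
    have s1 := ssd ℓ M hM hℓ V₀ G E₀ hFr B hSy n m hPE (Lm L) (by rw [p1_Lm]; exact hL1)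
      (by rw [p2_Lm]; exact hL2) χ (by rw [p1_Lm]; exact hχ) χ' (by rw [p2_Lm]; exact hχ')
    have s2 := ssd ℓ M hM hℓ V₀ G E₀ hFr B hSy n m hPE (Lp L) (by rw [p1_Lp]; exact hL1)
      (by rw [p2_Lp]; exact hL2) χ (by rw [p1_Lp]; exact hχ) χ' (by rw [p2_Lp]; exact hχ')
    rw [p1_Lm, p2_Lm] at s1
    rw [p1_Lp, p2_Lp] at s2
    have t1 := hS _ hL1
    have t2 := hS _ hL2
    change SL B m (Lm L) χ χ' = (Nat.card (B.C (pL L)) : ℂ) * Nat.card (B.C (qL L)) / ℓ ^ 2 *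
      (B.S (pL L) * B.S (qL L)) * ∑ᶠ w ∈ SO.H79.TT E₀ (Lm L), lam B (pL L) χ w.2 *
        starRingEnd ℂ (lam B (qL L) χ' (w.1 w.2)) at s1
    change SL B m (Lp L) χ χ' = (Nat.card (B.C (pL L)) : ℂ) * Nat.card (B.C (qL L)) / ℓ ^ 2 *
      (B.S (pL L) * B.S (qL L)) * ∑ᶠ w ∈ SO.H79.TT E₀ (Lp L), lam B (pL L) χ w.2 *
        starRingEnd ℂ (lam B (qL L) χ' (w.1 w.2)) at s2
    rw [s1, s2, v1 χ hχ, v2 χ' hχ']
    generalize (∑ᶠ w ∈ SO.H79.TT E₀ (Lm L), lam B (pL L) χ w.2 *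
      starRingEnd ℂ (lam B (qL L) χ' (w.1 w.2))) = P
    generalize (∑ᶠ w ∈ SO.H79.TT E₀ (Lp L), lam B (pL L) χ w.2 *
      starRingEnd ℂ (lam B (qL L) χ' (w.1 w.2))) = R
    have hK : starRingEnd ℂ ((Nat.card (B.C (pL L)) : ℂ) * Nat.card (B.C (qL L)) / ℓ ^ 2 *
        (B.S (pL L) * B.S (qL L)) * R) = (Nat.card (B.C (pL L)) : ℂ) * Nat.card (B.C (qL L)) /
        ℓ ^ 2 * (B.S (pL L) * B.S (qL L)) * starRingEnd ℂ R := by
      simp only [map_mul, map_div₀, map_pow, map_natCast, map_intCast]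
    rw [hK]
    generalize starRingEnd ℂ R = Q
    generalize ((B.S (pL L) : ℤ) : ℂ) = S₁ at t1 ⊢
    generalize ((B.S (qL L) : ℤ) : ℂ) = S₂ at t2 ⊢
    generalize (Nat.card (B.C (pL L)) : ℂ) = N₁
    generalize (Nat.card (B.C (qL L)) : ℂ) = N₂
    generalize ((ux B.U (pL L) c : ℚ) : ℂ) = x₁
    generalize ((ux B.U (qL L) d : ℚ) : ℂ) = x₂
    have t3 : (S₁ * S₂) * (S₁ * S₂) = 1 := by
      calc (S₁ * S₂) * (S₁ * S₂) = (S₁ * S₁) * (S₂ * S₂) := by ring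
        _ = 1 := by rw [t1, t2, one_mul]
    calc _ = ((S₁ * S₂) * (S₁ * S₂)) * (x₁ * x₂ * (N₁ * N₂ / ℓ ^ 2) ^ 2 *
          (lam B (pL L) χ c * lam B (qL L) χ' d * (P * Q))) := by ring
      _ = _ := by rw [t3, one_mul]
  rw [Finset.sum_congr rfl fun χ hχ => Finset.sum_congr rfl fun χ' hχ' => key χ hχ χ' hχ']
  simp only [← Finset.mul_sum]
  have h5 : ∑ χ ∈ (ch_finite B (pL L)).toFinset, ∑ χ' ∈ (ch_finite B (qL L)).toFinset,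
      (lam B (pL L) χ c * lam B (qL L) χ' d *
        ((∑ᶠ w ∈ SO.H79.TT E₀ (Lm L), lam B (pL L) χ w.2 *
            starRingEnd ℂ (lam B (qL L) χ' (w.1 w.2))) *
          starRingEnd ℂ (∑ᶠ w ∈ SO.H79.TT E₀ (Lp L), lam B (pL L) χ w.2 *
            starRingEnd ℂ (lam B (qL L) χ' (w.1 w.2))))) =
      (Nat.card V₀ : ℂ) ^ 2 * N13 E₀ c d L := by
    rw [← lin_double E₀ c d L]
    rw [← sum_lam B (pL L) b1 (fun f => ∑ f' : lin V₀, f c * f'.1 d *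
      ((∑ᶠ w ∈ SO.H79.TT E₀ (Lm L), f w.2 * starRingEnd ℂ (f'.1 (w.1 w.2))) *
        starRingEnd ℂ (∑ᶠ w ∈ SO.H79.TT E₀ (Lp L), f w.2 * starRingEnd ℂ (f'.1 (w.1 w.2)))))]
    refine Finset.sum_congr rfl fun χ _ => ?_
    exact sum_lam B (qL L) b2 (fun f' => lam B (pL L) χ c * f' d *
      ((∑ᶠ w ∈ SO.H79.TT E₀ (Lm L), lam B (pL L) χ w.2 * starRingEnd ℂ (f' (w.1 w.2))) *
        starRingEnd ℂ (∑ᶠ w ∈ SO.H79.TT E₀ (Lp L), lam B (pL L) χ w.2 *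
          starRingEnd ℂ (f' (w.1 w.2)))))
  rw [h5, hFr.cd]
  unfold P13
  push_cast
  field_simp

end Pool.Agent.PP.SD.H81
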